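import Pool.Agent.H94.KP2

set_option autoImplicit false

namespace Pool.Agent.Results.MP_d3af15_an.NotCompact
open Pool.Agent.H94.KP

theorem result : Counter (lp (fun _ : ℕ => ℝ) 2) := main

end Pool.Agent.Results.MP_d3af15_an.NotCompact
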